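import Pool.Agent.Helper37.SU.Stmts

set_option autoImplicit false

/-!
MP_aa31b4_an: ST_ALG.
-/

namespace Pool.Agent.Helper37.SU

open MeasureTheory Finset
open scoped ENNReal Classical

/-- continuous and real valued -/
def alg_R {X : Type} [TopologicalSpace X] (g : X → ℂ) : Prop :=
  Continuous g ∧ ∀ t, (starRingEnd ℂ) (g t) = g t

section
variable {X : Type} [TopologicalSpace X]

theorem alg_real {g : X → ℂ} (h : alg_R g) : ∃ h : C(X, ℝ), ∀ t, g t = ((h t : ℝ) : ℂ) :=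
  ⟨⟨fun t => (g t).re, Complex.continuous_re.comp h.1⟩,
    fun t => (Complex.conj_eq_iff_re.1 (h.2 t)).symm⟩

theorem alg_sub {g h : X → ℂ} (hg : alg_R g) (hh : alg_R h) : alg_R (fun t => g t - h t) :=
  ⟨hg.1.sub hh.1, fun t => by rw [map_sub, hg.2, hh.2]⟩

theorem alg_mul {g h : X → ℂ} (hg : alg_R g) (hh : alg_R h) : alg_R (fun t => g t * h t) :=
  ⟨hg.1.mul hh.1, fun t => by rw [map_mul, hg.2, hh.2]⟩

theorem alg_const (c : ℂ) (hc : (starRingEnd ℂ) c = c) : alg_R (fun _ : X => c) :=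
  ⟨continuous_const, fun _ => hc⟩

theorem alg_sum {ι : Type} (S : Finset ι) (g : ι → X → ℂ) (hg : ∀ i ∈ S, alg_R (g i)) :
    alg_R (fun t => ∑ i ∈ S, g i t) :=
  ⟨continuous_finsetSum S fun i hi => (hg i hi).1, fun t => by
    rw [map_sum]
    exact Finset.sum_congr rfl fun i hi => (hg i hi).2 t⟩

theorem alg_prod {ι : Type} (S : Finset ι) (g : ι → X → ℂ) (hg : ∀ i ∈ S, alg_R (g i)) :
    alg_R (fun t => ∏ i ∈ S, g i t) :=
  ⟨continuous_finsetProd S fun i hi => (hg i hi).1, fun t => by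
    rw [map_prod]
    exact Finset.prod_congr rfl fun i hi => (hg i hi).2 t⟩

theorem alg_comp {Y : Type} [TopologicalSpace Y] {g : X → ℂ} (hg : alg_R g) (u : Y → X)
    (hu : Continuous u) : alg_R (fun t => g (u t)) :=
  ⟨hg.1.comp hu, fun t => hg.2 (u t)⟩

end

theorem alg_pow (b m : ℕ) : (starRingEnd ℂ) (((b : ℂ) ^ m)⁻¹) = ((b : ℂ) ^ m)⁻¹ := by
  rw [map_inv₀, map_pow, map_natCast]

theorem alg_even (N : ℤ) (c : ℤ → ℝ) (hc : ∀ k, c (-k) = c k) :
    alg_R (fun t : UnitAddCircle => ∑ k ∈ Icc (-N) N, ((c k : ℝ) : ℂ) * (fourier k t : ℂ)) := by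
  refine ⟨?_, fun t => ?_⟩
  · refine continuous_finsetSum _ fun k _ => continuous_const.mul ?_
    exact (fourier k).continuous
  · rw [map_sum]
    refine Finset.sum_nbij' (fun k => -k) (fun k => -k) ?_ ?_ ?_ ?_ ?_
    · intro k hk
      rw [Finset.mem_Icc] at hk ⊢
      constructor <;> linarith [hk.1, hk.2]
    · intro k hk
      rw [Finset.mem_Icc] at hk ⊢
      constructor <;> linarith [hk.1, hk.2]
    · intro k _
      exact neg_neg k
    · intro k _
      exact neg_neg k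
    · intro k _
      rw [map_mul, Complex.conj_ofReal, hc, fourier_neg]

theorem alg_om (ξ : ℝ) : om (-ξ) = om ξ := by
  unfold om
  rw [mul_comm]
  congr 2 <;> ring

theorem alg_om' (b j : ℕ) (k : ℤ) : om (((-k : ℤ) : ℝ) / (b : ℝ) ^ j) = om ((k : ℝ) / (b : ℝ) ^ j) := by
  rw [Int.cast_neg, neg_div, alg_om]

theorem alg_vp (b j : ℕ) : alg_R (vp b j) :=
  alg_even _ (fun k => om ((k : ℝ) / (b : ℝ) ^ j)) fun k => alg_om' b j k

theorem alg_dk (b j : ℕ) : alg_R (dk b j) :=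
  alg_even _ (fun k => dkc b j k) fun k => by
    unfold dkc
    rw [alg_om', alg_om', Int.cast_neg, alg_om]

theorem alg_ik (b j : ℕ) : alg_R (ik b j) :=
  alg_mul (alg_const _ (alg_pow b j)) (alg_vp b j)

theorem alg_kap (b j a : ℕ) : alg_R (kap b j a) := by
  have hsh : Continuous fun t : UnitAddCircle => t - pt b j a := by fun_prop
  have h0 : alg_R (fun _ : UnitAddCircle => (0 : ℂ)) := alg_const 0 (map_zero _)
  have h1 : alg_R (fun _ : UnitAddCircle => (1 : ℂ)) := alg_const 1 (map_one _)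
  have hA : alg_R (fun t : UnitAddCircle => (if b ∣ a then ik b (j - 1) (t - pt b j a) else 0 : ℂ)) := by
    split_ifs
    · exact alg_comp (alg_ik b (j - 1)) _ hsh
    · exact h0
  have hB : alg_R (fun t : UnitAddCircle =>
      (if b ^ 2 ∣ a then ik b (j - 2) (t - pt b j a) else 0 : ℂ)) := by
    split_ifs
    · exact alg_comp (alg_ik b (j - 2)) _ hsh
    · exact h0
  have hAB := alg_sub hA hB
  have : kap b j a = fun t => if j = 0 then 0
      else if j = 1 then (if a = 0 then 1 else 0)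
      else (if b ∣ a then ik b (j - 1) (t - pt b j a) else 0) -
        (if b ^ 2 ∣ a then ik b (j - 2) (t - pt b j a) else 0) := by
    funext t
    rfl
  rw [this]
  by_cases hj0 : j = 0
  · simp only [hj0, if_true]
    exact h0
  by_cases hj1 : j = 1
  · by_cases ha : a = 0
    · simp only [hj1, ha, if_true, one_ne_zero, if_false]
      exact h1
    · simp only [hj1, ha, if_true, one_ne_zero, if_false]
      exact h0
  simp only [hj0, hj1, if_false]
  exact hAB

theorem alg_KP {d : ℕ} (b : ℕ) (B : Bo d) :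
    alg_R (fun t : TT d => ∏ i, kap b (B.1 i) (B.2 i) (t i)) :=
  alg_prod univ (fun i (t : TT d) => kap b (B.1 i) (B.2 i) (t i)) fun i _ =>
    alg_comp (alg_kap b (B.1 i) (B.2 i)) (fun t : TT d => t i) (continuous_apply i)

theorem alg_DK {d : ℕ} (b : ℕ) (s : Fin d → ℕ) (y : TT d) :
    alg_R (fun t : TT d => DK b s (t - y)) :=
  alg_prod univ (fun i (t : TT d) => dk b (s i) ((t - y) i)) fun i _ =>
    alg_comp (alg_dk b (s i)) (fun t : TT d => (t - y) i)
      (by simp only [Pi.sub_apply]; fun_prop)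

/-- the grid points -/
noncomputable def algG (b d n₁ : ℕ) : Finset (Bo d) := (range (n₁ + 1)).biUnion (lev b d)

theorem algG_card (b d n₁ : ℕ) :
    (algG b d n₁).card ≤ ∑ l ∈ range (n₁ + 1), (shp d l).card * b ^ l := by
  unfold algG
  refine Finset.card_biUnion_le.trans (Finset.sum_le_sum fun l _ => ?_)
  unfold lev
  refine Finset.card_biUnion_le.trans ?_
  rw [← smul_eq_mul]
  refine Finset.sum_le_card_nsmul _ _ _ fun s hs => ?_
  refine Finset.card_image_le.trans ?_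
  unfold gr
  rw [Fintype.card_piFinset]
  simp only [card_range]
  rw [Finset.prod_pow_eq_pow_sum, mem_shp.1 hs]

theorem algG_Sn (b d n₁ : ℕ) (f : TT d → ℂ) (t : TT d) :
    Sn b n₁ f t = ∑ B ∈ algG b d n₁, f (ptv b B) * ∏ i, kap b (B.1 i) (B.2 i) (t i) := by
  unfold algG
  rw [Finset.sum_biUnion]
  · unfold Sn
    refine Finset.sum_congr rfl fun l _ => ?_
    rw [sum_lev]
    rfl
  · intro l _ l' _ hne
    rw [Function.onFun, Finset.disjoint_left]
    intro B hB hB'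
    exact hne ((mem_lev.1 hB).1.symm.trans (mem_lev.1 hB').1)

theorem alg_Aop (b d m n₀ n₁ n : ℕ) (x : Fin (b ^ m) → TT d) (f : TT d → ℂ) (t : TT d)
    (W : Fin (b ^ m) → TT d → ℂ)
    (hW : ∀ p t, W p t = ∑ l ∈ Icc n₀ n, ∑ s ∈ shp d l, ((b : ℂ) ^ m)⁻¹ * DK b s (t - x p)) :
    Aop b m n₀ n₁ n x f t = (∑ B ∈ algG b d n₁, f (ptv b B) *
      ((∏ i, kap b (B.1 i) (B.2 i) (t i)) -
        ∑ p, (∏ i, kap b (B.1 i) (B.2 i) (x p i)) * W p t)) + ∑ p, f (x p) * W p t := by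
  have h1 : ∑ l ∈ Icc n₀ n, ∑ s ∈ shp d l,
      ((b : ℂ) ^ m)⁻¹ * ∑ p, (f (x p) - Sn b n₁ f (x p)) * DK b s (t - x p) =
      ∑ p, (f (x p) - Sn b n₁ f (x p)) * W p t := by
    have h2 : ∑ p, (f (x p) - Sn b n₁ f (x p)) * W p t = ∑ p, ∑ l ∈ Icc n₀ n, ∑ s ∈ shp d l,
        (f (x p) - Sn b n₁ f (x p)) * (((b : ℂ) ^ m)⁻¹ * DK b s (t - x p)) := by
      simp only [hW, Finset.mul_sum]
    rw [h2, Finset.sum_comm]
    refine Finset.sum_congr rfl fun l _ => ?_
    rw [Finset.sum_comm]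
    refine Finset.sum_congr rfl fun s _ => ?_
    rw [Finset.mul_sum]
    refine Finset.sum_congr rfl fun p _ => by ring
  have h3 : ∑ p, (∑ B ∈ algG b d n₁, f (ptv b B) * ∏ i, kap b (B.1 i) (B.2 i) (x p i)) * W p t =
      ∑ B ∈ algG b d n₁, f (ptv b B) *
        ∑ p, (∏ i, kap b (B.1 i) (B.2 i) (x p i)) * W p t := by
    simp only [Finset.mul_sum, Finset.sum_mul]
    rw [Finset.sum_comm]
    refine Finset.sum_congr rfl fun B _ => Finset.sum_congr rfl fun p _ => by ring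
  unfold Aop
  rw [h1]
  simp only [algG_Sn, sub_mul, mul_sub, Finset.sum_sub_distrib]
  rw [h3]
  ring

theorem st_ALG : ST_ALG := by
  intro b d m n₀ n₁ n x _
  set W : Fin (b ^ m) → TT d → ℂ := fun p t =>
    ∑ l ∈ Icc n₀ n, ∑ s ∈ shp d l, ((b : ℂ) ^ m)⁻¹ * DK b s (t - x p) with hWdef
  have hWR : ∀ p, alg_R (W p) := fun p =>
    alg_sum _ (fun l (t : TT d) => ∑ s ∈ shp d l, ((b : ℂ) ^ m)⁻¹ * DK b s (t - x p)) fun l _ =>
      alg_sum _ (fun s (t : TT d) => ((b : ℂ) ^ m)⁻¹ * DK b s (t - x p)) fun s _ =>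
        alg_mul (alg_const _ (alg_pow b m)) (alg_DK b s (x p))
  set K : Bo d → TT d → ℂ := fun B t =>
    (∏ i, kap b (B.1 i) (B.2 i) (t i)) - ∑ p, (∏ i, kap b (B.1 i) (B.2 i) (x p i)) * W p t
    with hKdef
  have hKR : ∀ B, alg_R (K B) := fun B =>
    alg_sub (alg_KP b B) (alg_sum univ
      (fun p (t : TT d) => (∏ i, kap b (B.1 i) (B.2 i) (x p i)) * W p t) fun p _ =>
        alg_mul (alg_const _ ((alg_KP b B).2 (x p))) (hWR p))
  choose ψW hψW using fun p => alg_real (hWR p)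
  choose ψK hψK using fun B => alg_real (hKR B)
  let ι : Type := (algG b d n₁ : Set (Bo d)) ⊕ Fin (b ^ m)
  let e : ι ≃ Fin (Fintype.card ι) := Fintype.equivFin ι
  let Y : ι → TT d := Sum.elim (fun B => ptv b B.1) x
  let Ψ : ι → C(TT d, ℝ) := Sum.elim (fun B => ψK B.1) ψW
  refine ⟨Fintype.card ι, fun i => Y (e.symm i), fun i => Ψ (e.symm i), ?_, fun f t => ?_⟩
  · have h1 : Fintype.card ι = (algG b d n₁).card + b ^ m := by
      simp only [ι, Fintype.card_sum, Fintype.card_fin]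
      congr 1
      simp
    rw [h1]
    exact Nat.add_le_add_right (algG_card b d n₁) _
  · rw [alg_Aop b d m n₀ n₁ n x f t W (fun p t => rfl)]
    have h2 : ∑ i, f (Y (e.symm i)) * ((Ψ (e.symm i) t : ℝ) : ℂ) =
        ∑ j, f (Y j) * ((Ψ j t : ℝ) : ℂ) :=
      Equiv.sum_comp e.symm (fun j => f (Y j) * ((Ψ j t : ℝ) : ℂ))
    rw [h2, Fintype.sum_sum_type]
    congr 1
    · have h3 : ∀ B ∈ algG b d n₁, f (ptv b B) *
          ((∏ i, kap b (B.1 i) (B.2 i) (t i)) -
            ∑ p, (∏ i, kap b (B.1 i) (B.2 i) (x p i)) * W p t) =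
          f (ptv b B) * ((ψK B t : ℝ) : ℂ) := fun B _ => by
        rw [← hψK B t]
      rw [Finset.sum_congr rfl h3]
      rw [← Finset.sum_coe_sort (algG b d n₁) (fun B => f (ptv b B) * ((ψK B t : ℝ) : ℂ))]
      rfl
    · refine Finset.sum_congr rfl fun p _ => ?_
      rw [hψW p t]
      rfl

end Pool.Agent.Helper37.SU
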