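import Pool.Agent.Helper37.SU.Stmts

set_option autoImplicit false

/-!
MP_aa31b4_an: ST_DC1.
-/

namespace Pool.Agent.Helper37.SU

open MeasureTheory Finset
open scoped ENNReal Classical

theorem dc1_sum {d : ℕ} {M : Type*} [AddCommMonoid M] (L : ℕ) (J : Fin d → ℕ)
    (G : (Fin d → ℕ) → M) (hJ : ∀ s : Fin d → ℕ, (∀ i, s i < J i) → ∑ i, s i ≤ L)
    (hG : ∀ s : Fin d → ℕ, (∃ i, J i ≤ s i) → G s = 0) :
    ∑ l ∈ range (L + 1), ∑ s ∈ shp d l, G s = ∑ s ∈ Fintype.piFinset (fun i => range (J i)), G s := by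
  have h1 : ∑ l ∈ range (L + 1), ∑ s ∈ shp d l, G s =
      ∑ s ∈ (range (L + 1)).biUnion (fun l => shp d l), G s := by
    rw [Finset.sum_biUnion]
    intro l _ l' _ hne
    rw [Function.onFun, Finset.disjoint_left]
    intro s hs hs'
    exact hne ((mem_shp.1 hs).symm.trans (mem_shp.1 hs'))
  rw [h1]
  symm
  apply Finset.sum_subset
  · intro s hs
    rw [Fintype.mem_piFinset] at hs
    rw [Finset.mem_biUnion]
    refine ⟨∑ i, s i, ?_, mem_shp.2 rfl⟩
    rw [mem_range]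
    have := hJ s (fun i => mem_range.1 (hs i))
    omega
  · intro s _ hs
    apply hG
    rw [Fintype.mem_piFinset] at hs
    push Not at hs
    obtain ⟨i, hi⟩ := hs
    exact ⟨i, by rw [mem_range] at hi; omega⟩

theorem dc1_dop {b d : ℕ} (s : Fin d → ℕ) (Λ : Finset (Fin d → ℤ)) (c : (Fin d → ℤ) → ℂ)
    (t : TT d) : Dop b s (tp Λ c) t = ∑ k ∈ Λ, c k * ∏ i, D1 b (s i) (k i) (t i) := by
  unfold Dop tp D1
  simp only [Finset.sum_mul]
  rw [Finset.sum_comm]
  refine Finset.sum_congr rfl fun k _ => ?_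
  rw [Finset.prod_univ_sum, Finset.mul_sum]
  refine Finset.sum_congr rfl fun a _ => ?_
  rw [mul_assoc, ← Finset.prod_mul_distrib]
  rfl

theorem st_DC1 (hKAP : ST_KAP) : ST_DC1 := by
  intro b d Λ c hb
  obtain ⟨_, hK2, hK3⟩ := hKAP b hb
  set J0 : ℕ := ∑ k ∈ Λ, ∑ i, (4 * |k i|).toNat with hJ0
  have hbd : ∀ k ∈ Λ, ∀ i, 4 * |k i| ≤ (b : ℤ) ^ J0 := by
    intro k hk i
    have h1 : (4 * |k i|).toNat ≤ ∑ i, (4 * |k i|).toNat :=
      Finset.single_le_sum (f := fun i => (4 * |k i|).toNat) (fun _ _ => Nat.zero_le _) (mem_univ i)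
    have h2 : ∑ i, (4 * |k i|).toNat ≤ J0 :=
      Finset.single_le_sum (f := fun k => ∑ i, (4 * |k i|).toNat) (fun _ _ => Nat.zero_le _) hk
    have h3 : J0 < b ^ J0 := Nat.lt_pow_self (by omega)
    have h4 : 4 * |k i| = (((4 * |k i|).toNat : ℕ) : ℤ) := by
      rw [Int.toNat_of_nonneg (by positivity)]
    rw [h4]
    exact_mod_cast (h1.trans h2).trans h3.le
  refine ⟨d * (J0 + 1), fun L hL t => ?_⟩
  rw [dc1_sum L (fun _ => J0 + 2)]
  · simp only [dc1_dop]
    rw [Finset.sum_comm]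
    unfold tp
    refine Finset.sum_congr rfl fun k hk => ?_
    rw [← Finset.mul_sum]
    have h9 := Finset.prod_univ_sum (fun _ : Fin d => range (J0 + 2))
      (fun i j => D1 b j (k i) (t i))
    rw [← h9]
    congr 1
    refine Finset.prod_congr rfl fun i _ => ?_
    rw [hK2 J0 (k i) (t i) (hbd k hk i)]
  · intro s hs
    calc ∑ i, s i ≤ ∑ _i : Fin d, (J0 + 1) := Finset.sum_le_sum fun i _ => by
          have := hs i
          omega
      _ = d * (J0 + 1) := by simp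
      _ ≤ L := hL
  · rintro s ⟨i, hi⟩
    rw [dc1_dop]
    apply Finset.sum_eq_zero
    intro k hk
    rw [Finset.prod_eq_zero (mem_univ i), mul_zero]
    obtain ⟨j, hj⟩ : ∃ j, s i = j + 2 := ⟨s i - 2, by omega⟩
    rw [hj]
    apply hK3
    refine (hbd k hk i).trans ?_
    have : (1 : ℤ) ≤ (b : ℤ) := by exact_mod_cast (by omega : 1 ≤ b)
    exact pow_le_pow_right₀ this (by omega)

end Pool.Agent.Helper37.SU
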