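import Pool.Agent.Helper37.SU.Stmts
import Pool.Agent.Helper97.SU.DC1

set_option autoImplicit false

/-!
MP_aa31b4_an: ST_DC3.
-/

namespace Pool.Agent.Helper37.SU

open MeasureTheory Finset
open scoped ENNReal Classical

theorem dc3_dkc (hDKS : ST_DKS) {b : ℕ} (hb : 2 ≤ b) {i : ℕ} {k : ℤ} (hk : (b : ℤ) ^ i < |k|) :
    dkc b i k = 0 := by
  by_contra hne
  have hb1 : (1 : ℤ) ≤ (b : ℤ) := by exact_mod_cast (by omega : 1 ≤ b)
  rcases Nat.eq_zero_or_pos i with h0 | h0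
  · apply hne
    unfold dkc
    rw [if_pos h0]
  · have h1 := (hDKS b k hb).2.2.1 i h0 hne
    have h2 : (b : ℤ) ^ (i - 1) ≤ (b : ℤ) ^ i := pow_le_pow_right₀ hb1 (by omega)
    have h3 : (0 : ℤ) < (b : ℤ) ^ (i - 1) := by positivity
    linarith

theorem dc3_om (hOM : ST_OM) {b : ℕ} (hb : 2 ≤ b) {i : ℕ} {k : ℤ}
    (h : 3 * (b : ℤ) ^ i ≤ 4 * |k|) : om ((k : ℝ) / (b : ℝ) ^ i) = 0 := by
  apply hOM.2.2.1
  have hp : (0 : ℝ) < (b : ℝ) ^ i := by
    have : (0 : ℝ) < (b : ℝ) := by exact_mod_cast (by omega : 0 < b)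
    positivity
  rw [abs_div, abs_of_pos hp, le_div_iff₀ hp]
  have h' : (3 : ℝ) * (b : ℝ) ^ i ≤ 4 * |(k : ℝ)| := by exact_mod_cast h
  linarith

theorem dc3_one (hDKS : ST_DKS) (hOM : ST_OM) {b : ℕ} (hb : 3 ≤ b) (i' : ℕ)
    (u : UnitAddCircle) : ik b i' u = ∑ i ∈ range (i' + 3), hk b i i' u := by
  have hb1 : (1 : ℤ) ≤ (b : ℤ) := by exact_mod_cast (by omega : 1 ≤ b)
  set N : ℤ := (b : ℤ) ^ (i' + 3) with hN
  have e1 : ik b i' u = ∑ k ∈ Icc (-N) N,
      ((b : ℂ) ^ i')⁻¹ * ((om ((k : ℝ) / (b : ℝ) ^ i') : ℝ) : ℂ) * fourier k u := by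
    unfold ik vp
    rw [Finset.mul_sum]
    refine (Finset.sum_congr rfl fun k _ => (mul_assoc _ _ _).symm).trans
      (Finset.sum_subset ?_ ?_)
    · have h2 : (b : ℤ) ^ i' ≤ N := pow_le_pow_right₀ hb1 (by omega)
      exact Finset.Icc_subset_Icc (by linarith) h2
    · intro k _ hk
      have hk' : (b : ℤ) ^ i' < |k| := by
        by_contra hcon
        push Not at hcon
        exact hk (Finset.mem_Icc.2 (abs_le.1 hcon))
      have h3 : (0 : ℤ) < (b : ℤ) ^ i' := by positivity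
      rw [dc3_om hOM (by omega) (by linarith)]
      simp
  have e2 : ∀ i ∈ range (i' + 3), hk b i i' u = ∑ k ∈ Icc (-N) N,
      ((b : ℂ) ^ i')⁻¹ * ((dkc b i k * om ((k : ℝ) / (b : ℝ) ^ i') : ℝ) : ℂ) * fourier k u := by
    intro i hi
    rw [mem_range] at hi
    unfold hk
    apply Finset.sum_subset
    · have h2 : (b : ℤ) ^ i ≤ N := pow_le_pow_right₀ hb1 (by omega)
      exact Finset.Icc_subset_Icc (by linarith) h2
    · intro k _ hk
      have hk' : (b : ℤ) ^ i < |k| := by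
        by_contra hcon
        push Not at hcon
        exact hk (Finset.mem_Icc.2 (abs_le.1 hcon))
      rw [dc3_dkc hDKS (by omega) hk']
      simp
  rw [e1, Finset.sum_congr rfl e2, Finset.sum_comm]
  refine Finset.sum_congr rfl fun k _ => ?_
  rw [← Finset.sum_mul, ← Finset.mul_sum, ← Complex.ofReal_sum, ← Finset.sum_mul]
  congr 3
  by_cases h : 3 * (b : ℤ) ^ i' ≤ 4 * |k|
  · rw [dc3_om hOM (by omega) h, mul_zero]
  · push Not at h
    have h4 : 4 * |k| ≤ (b : ℤ) ^ (i' + 1) := by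
      have h5 : (0 : ℤ) < (b : ℤ) ^ i' := by positivity
      have h6 : (3 : ℤ) ≤ (b : ℤ) := by exact_mod_cast hb
      rw [pow_succ]
      nlinarith
    rw [(hDKS b k (by omega)).1 (i' + 1) h4 (i' + 3) (by omega), one_mul]

theorem st_DC3 (hDKS : ST_DKS) (hOM : ST_OM) (hHKB : ST_HKB) : ST_DC3 := by
  intro b d B t L hb hL
  obtain ⟨C, _, hC⟩ := hHKB b hb
  rw [dc1_sum L (fun i => B.1 i + 3)]
  · have h9 := Finset.prod_univ_sum (fun i : Fin d => range (B.1 i + 3))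
      (fun i j => hk b j (B.1 i) (t i - pt b (B.1 i) (B.2 i)))
    rw [← h9]
    unfold Phi
    exact Finset.prod_congr rfl fun i _ => dc3_one hDKS hOM hb _ _
  · intro s hs
    calc ∑ i, s i ≤ ∑ i : Fin d, (B.1 i + 2) := Finset.sum_le_sum fun i _ => by
          have := hs i
          omega
      _ = ∑ i, B.1 i + 2 * d := by
          rw [Finset.sum_add_distrib]
          simp [mul_comm]
      _ ≤ L := hL
  · rintro s ⟨i, hi⟩
    exact Finset.prod_eq_zero (mem_univ i) ((hC (s i) (B.1 i) _).2 hi)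

end Pool.Agent.Helper37.SU
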